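import Pool.Agent.W931.LC.Meas

set_option autoImplicit false

/-!
# Measurable cardinals are inaccessible and have normal measures
-/

namespace Pool.Agent.W279.LC

open Cardinal Pool.Agent.W931.LC

section

variable {κ : Cardinal.{0}} (U : Ultrafilter κ.ord.ToType)
  (hC : ∀ (ι : Type), #ι < κ → ∀ A : ι → Set κ.ord.ToType, (∀ i, A i ∈ U) → (⋂ i, A i) ∈ U)
  (hN : ∀ a, {a} ∉ U)

theorem mk_Iio_lt' (hk : ℵ₀ < κ) (a : κ.ord.ToType) : #(Set.Iio a) < κ := by
  have h := Cardinal.mk_Iio_lt (α := κ.ord.ToType) a (by simp)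
  simpa using h

theorem mk_Iic_lt' (hk : ℵ₀ < κ) (a : κ.ord.ToType) : #(Set.Iic a) < κ := by
  have h : Set.Iic a = insert a (Set.Iio a) := by
    ext x
    simp [le_iff_eq_or_lt]
  rw [h]
  refine lt_of_le_of_lt (Cardinal.mk_insert_le) ?_
  exact Cardinal.add_lt_of_lt hk.le (mk_Iio_lt' hk a) (Cardinal.one_lt_aleph0.trans hk)

include hC hN in
theorem small (S : Set κ.ord.ToType) (hS : #S < κ) : Sᶜ ∈ U := by
  have h := hC S hS (fun a => {a.1}ᶜ) fun a => Ultrafilter.compl_mem_iff_notMem.mpr (hN a.1)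
  have e : (⋂ a : S, ({a.1}ᶜ : Set κ.ord.ToType)) = Sᶜ := by
    ext x
    simp only [Set.mem_iInter, Set.mem_compl_iff, Set.mem_singleton_iff]
    constructor
    · intro hx hxS
      exact hx ⟨x, hxS⟩ rfl
    · rintro hx ⟨a, ha⟩ rfl
      exact hx ha
  rw [e] at h
  exact h

include hC in
theorem union (ι : Type) (hι : #ι < κ) (A : ι → Set κ.ord.ToType) (h : (⋃ i, A i) ∈ U) :
    ∃ i, A i ∈ U := by
  by_contra hcon
  push Not at hcon
  have h1 := hC ι hι (fun i => (A i)ᶜ) fun i => Ultrafilter.compl_mem_iff_notMem.mpr (hcon i)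
  rw [← Set.compl_iUnion] at h1
  exact Ultrafilter.compl_mem_iff_notMem.mp h1 h

include hC hN in
theorem regular (hk : ℵ₀ < κ) : κ.IsRegular := by
  refine ⟨hk.le, ?_⟩
  rw [← Ordinal.cof_toType, Order.le_cof_iff]
  intro s hs
  by_contra hcon
  rw [not_le] at hcon
  have h1 : (⋃ i : s, Set.Iic i.1) ∈ U := by
    have e : (⋃ i : s, Set.Iic i.1) = Set.univ := by
      rw [Set.eq_univ_iff_forall]
      intro x
      obtain ⟨y, hy, hxy⟩ := hs x
      exact Set.mem_iUnion.mpr ⟨⟨y, hy⟩, hxy⟩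
    rw [e]
    exact Filter.univ_mem
  obtain ⟨i, hi⟩ := union U hC s hcon _ h1
  exact Ultrafilter.compl_mem_iff_notMem.mp (small U hC hN _ (mk_Iic_lt' hk i.1)) hi

include hC hN in
theorem strongLimit (ν : Cardinal.{0}) (hν : ν < κ) : (2 : Cardinal.{0}) ^ ν < κ := by
  by_contra hcon
  rw [not_lt] at hcon
  have h1 : #κ.ord.ToType ≤ #(ν.out → Bool) := by
    rw [Cardinal.mk_ord_toType]
    simpa using hcon
  obtain ⟨f⟩ := Cardinal.le_def _ _ |>.mp h1
  have h2 : ∀ n : ν.out, ∃ b : Bool, {x | f x n = b} ∈ U := by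
    intro n
    by_cases h : {x | f x n = true} ∈ U
    · exact ⟨true, h⟩
    · refine ⟨false, ?_⟩
      have h3 := Ultrafilter.compl_mem_iff_notMem.mpr h
      have e : {x | f x n = true}ᶜ = {x | f x n = false} := by
        ext x
        simp
      rw [e] at h3
      exact h3
  choose b hb using h2
  have h3 := hC ν.out (by simpa using hν) _ hb
  by_cases h4 : (⋂ i, {x | f x i = b i}).Nonempty
  · obtain ⟨a, ha⟩ := h4
    refine hN a (Filter.mem_of_superset h3 ?_)
    intro x hx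
    rw [Set.mem_singleton_iff]
    apply f.injective
    funext n
    rw [Set.mem_iInter] at ha hx
    exact (hx n).trans (ha n).symm
  · rw [Set.not_nonempty_iff_eq_empty] at h4
    rw [h4] at h3
    exact Ultrafilter.empty_notMem h3

include hC hN in
/-- a minimal unbounded function modulo the ultrafilter -/
theorem minimal (hk : ℵ₀ < κ) : ∃ f : κ.ord.ToType → κ.ord.ToType,
    (∀ a, {x | a < f x} ∈ U) ∧
    ∀ g : κ.ord.ToType → κ.ord.ToType, {x | g x < f x} ∈ U → ∃ a, {x | a < g x} ∉ U := by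
  by_contra hcon
  push Not at hcon
  let C := {f : κ.ord.ToType → κ.ord.ToType // ∀ a, {x | a < f x} ∈ U}
  have hnext : ∀ f : C, ∃ g : C, {x | g.1 x < f.1 x} ∈ U := by
    intro f
    obtain ⟨g, hg1, hg2⟩ := hcon f.1 f.2
    exact ⟨⟨g, hg2⟩, hg1⟩
  choose nx hnx using hnext
  have hid : ∀ a : κ.ord.ToType, {x | a < id x} ∈ U := by
    intro a
    have h := small U hC hN (Set.Iic a) (mk_Iic_lt' hk a)
    have e : (Set.Iic a)ᶜ = {x | a < id x} := by
      ext x
      simp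
    rw [e] at h
    exact h
  let F : ℕ → C := fun n => Nat.rec ⟨id, hid⟩ (fun _ f => nx f) n
  have hF : ∀ n, {x | (F (n + 1)).1 x < (F n).1 x} ∈ U := fun n => hnx (F n)
  have h1 := hC ℕ (by simpa using hk) _ hF
  obtain ⟨x, hx⟩ := Filter.nonempty_of_mem h1
  rw [Set.mem_iInter] at hx
  exact not_strictAnti_of_wellFoundedLT (fun n => (F n).1 x) (strictAnti_nat_of_succ_lt hx)

end

theorem tMEAS : S_MEAS := by
  rintro κ ⟨hk, U, hC, hN⟩
  refine ⟨hk, regular U hC hN hk, fun ν hν => strongLimit U hC hN ν hν, ?_⟩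
  obtain ⟨f, hf, hmin⟩ := minimal U hC hN hk
  refine ⟨U.map f, ?_, ?_, ?_⟩
  · intro ι hι A hA
    rw [Ultrafilter.mem_map, Set.preimage_iInter]
    exact hC ι hι _ fun i => Ultrafilter.mem_map.mp (hA i)
  · intro a
    rw [Ultrafilter.mem_map]
    exact hf a
  · intro g hg
    rw [Ultrafilter.mem_map] at hg
    obtain ⟨a, ha⟩ := hmin (fun x => g (f x)) hg
    have h1 : (⋃ b : Set.Iic a, {x | g (f x) = b.1}) ∈ U := by
      have h2 := Ultrafilter.compl_mem_iff_notMem.mpr ha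
      refine Filter.mem_of_superset h2 ?_
      intro x hx
      rw [Set.mem_compl_iff, Set.mem_setOf_eq, not_lt] at hx
      exact Set.mem_iUnion.mpr ⟨⟨g (f x), hx⟩, rfl⟩
    obtain ⟨b, hb⟩ := union U hC _ (mk_Iic_lt' hk a) _ h1
    exact ⟨b.1, Ultrafilter.mem_map.mpr hb⟩

end Pool.Agent.W279.LC
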